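import Pool.Agent.helper35.BQ.Spec

/-!
# Project BQ (MP_baa4d7_al), row LFT: lifting (pure group theory)
-/

set_option autoImplicit false

open Pool.Agent.helper58.DC Pool.Agent.DI Pool.Agent.DR Pool.Agent.NQ

namespace Pool.Agent.BQ

/-- a subgroup of a cyclic group is cyclic -/
private lemma LFT_cyc {G : Type} [Group G] (H N : Subgroup G) (hN : ∀ v ∈ H, ∀ w ∈ N, v * w * v⁻¹ ∈ N)
    (V : Subgroup G) (hV : V ≤ H) (hc : ∃ s ∈ H, ∀ v ∈ H, ∃ i : ℤ, s ^ i * v ∈ N) :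
    ∃ s ∈ V, ∀ v ∈ V, ∃ i : ℤ, s ^ i * v ∈ N := by
  obtain ⟨s, hs, hsv⟩ := hc
  have hconj : ∀ (j : ℤ) (w : G), w ∈ N → s ^ j * w * (s ^ j)⁻¹ ∈ N := fun j w hw =>
    hN _ (H.zpow_mem hs j) w hw
  -- the subgroup of the integers `i` with `s ^ i ∈ V N`
  let Z : AddSubgroup ℤ :=
    { carrier := {i | ∃ w ∈ N, s ^ i * w ∈ V}
      zero_mem' := ⟨1, N.one_mem, by simp⟩
      add_mem' := by
        rintro i j ⟨w, hw, hw'⟩ ⟨u, hu, hu'⟩
        refine ⟨(s ^ j)⁻¹ * w * s ^ j * u, N.mul_mem ?_ hu, ?_⟩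
        · have := hconj (-j) w hw
          rwa [zpow_neg, inv_inv] at this
        · have h1 := V.mul_mem hw' hu'
          have h2 : s ^ (i + j) * ((s ^ j)⁻¹ * w * s ^ j * u) = s ^ i * w * (s ^ j * u) := by
            rw [zpow_add]; group
          rw [h2]; exact h1
      neg_mem' := by
        rintro i ⟨w, hw, hw'⟩
        refine ⟨s ^ i * w⁻¹ * (s ^ i)⁻¹, hconj i _ (N.inv_mem hw), ?_⟩
        have h1 := V.inv_mem hw'
        have h2 : s ^ (-i) * (s ^ i * w⁻¹ * (s ^ i)⁻¹) = (s ^ i * w)⁻¹ := by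
          rw [zpow_neg]; group
        rw [h2]; exact h1 }
  obtain ⟨d, hd⟩ := Int.subgroup_cyclic Z
  have hdZ : d ∈ Z := by
    rw [hd]
    exact AddSubgroup.mem_closure_singleton_self d
  obtain ⟨w, hw, hw'⟩ := hdZ
  refine ⟨s ^ d * w, hw', fun v hv => ?_⟩
  obtain ⟨i, hi⟩ := hsv v (hV hv)
  -- `v = s ^ (-i) * (s ^ i * v)`, so `-i ∈ Z`
  have hiZ : -i ∈ Z := by
    refine ⟨s ^ i * v, hi, ?_⟩
    have : s ^ (-i) * (s ^ i * v) = v := by rw [zpow_neg]; group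
    rw [this]; exact hv
  rw [hd, AddSubgroup.mem_closure_singleton] at hiZ
  obtain ⟨k, hk⟩ := hiZ
  refine ⟨-k, ?_⟩
  -- `(s ^ d * w) ^ k ∈ s ^ (d * k) N`
  have hpow : ∀ m : ℤ, (s ^ (d * m))⁻¹ * (s ^ d * w) ^ m ∈ N := by
    intro m
    induction m with
    | zero => simp
    | succ m ih =>
      have h1 := hconj (-d) _ ih
      have h2 := N.mul_mem h1 hw
      have h3 : (s ^ (d * ((m : ℤ) + 1)))⁻¹ * (s ^ d * w) ^ ((m : ℤ) + 1) =
          s ^ (-d) * ((s ^ (d * (m : ℤ)))⁻¹ * (s ^ d * w) ^ (m : ℤ)) * (s ^ (-d))⁻¹ * w := by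
        rw [mul_add, mul_one, zpow_add, zpow_add, zpow_one, zpow_neg]
        have hcm : s ^ (d * (m : ℤ)) * s ^ d = s ^ d * s ^ (d * (m : ℤ)) := by
          rw [← zpow_add, ← zpow_add, add_comm]
        rw [hcm]
        group
      rw [h3]; exact h2
    | pred m ih =>
      have h1 := N.mul_mem ih (N.inv_mem hw)
      have h2 := hconj d _ h1
      have h3 : (s ^ (d * (-(m : ℤ) - 1)))⁻¹ * (s ^ d * w) ^ (-(m : ℤ) - 1) =
          s ^ d * ((s ^ (d * (-(m : ℤ))))⁻¹ * (s ^ d * w) ^ (-(m : ℤ)) * w⁻¹) * (s ^ d)⁻¹ := by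
        rw [mul_sub, mul_one, zpow_sub, zpow_sub, zpow_one]
        have hcm : s ^ (d * (-(m : ℤ))) * (s ^ d)⁻¹ = (s ^ d)⁻¹ * s ^ (d * (-(m : ℤ))) := by
          rw [← zpow_neg s d, ← zpow_add, ← zpow_add, add_comm]
        rw [hcm]
        group
      rw [h3]; exact h2
  have h4 := N.inv_mem (hpow k)
  have h5 := N.mul_mem h4 hi
  have hk' : d * k = -i := by
    rw [mul_comm]; simpa using hk
  have h6 : ((s ^ (d * k))⁻¹ * (s ^ d * w) ^ k)⁻¹ * (s ^ i * v) = (s ^ d * w) ^ (-k) * v := by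
    rw [hk']
    rw [zpow_neg, zpow_neg]
    group
  rw [h6] at h5
  exact h5

/-- the group-theoretic core, in the group `V` -/
private lemma LFT_core (p : ℕ) [Fact p.Prime] {G : Type} [Group G] [Finite G] (K N : Subgroup G)
    [hK : K.Normal] [hN : N.Normal] (hKN : K ≤ N) (hp : ∀ w ∈ N, ∃ k : ℕ, w ^ p ^ k ∈ K)
    (hc : ∃ s : G, ∀ v : G, ∃ i : ℤ, s ^ i * v ∈ N) :
    ∃ U : Subgroup G, U ⊔ K = ⊤ ∧ ∃ Q : Subgroup U, IsPGroup p Q ∧ CycQ Q := by
  obtain ⟨s, hs⟩ := hc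
  let P : Sylow p N := default
  have hfr := Sylow.normalizer_sup_eq_top P
  set Q : Subgroup G := (P : Subgroup N).map N.subtype with hQ
  have hQp : IsPGroup p Q := P.isPGroup'.map _
  have hQN : Q ≤ N := Subgroup.map_subtype_le _
  -- `N = K Q`
  have hNKQ : N ≤ Q ⊔ K := by
    let Kn : Subgroup N := K.subgroupOf N
    have hKn : Kn.Normal := hK.subgroupOf N
    have hpq : IsPGroup p (N ⧸ Kn) := by
      intro g
      induction g using QuotientGroup.induction_on with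
      | H g =>
        obtain ⟨k, hk⟩ := hp g g.2
        refine ⟨k, ?_⟩
        rw [← QuotientGroup.mk_pow, QuotientGroup.eq_one_iff, Subgroup.mem_subgroupOf]
        exact hk
    obtain ⟨m, hm⟩ := IsPGroup.iff_card.1 hpq
    have h1 : ((P : Subgroup N) ⊔ Kn).index ∣ (P : Subgroup N).index :=
      Subgroup.index_dvd_of_le le_sup_left
    have h2 : ((P : Subgroup N) ⊔ Kn).index ∣ p ^ m := by
      rw [← hm]
      exact Subgroup.index_dvd_of_le le_sup_right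
    have h3 : Nat.Coprime (p ^ m) (P : Subgroup N).index :=
      Nat.Coprime.pow_left m ((Nat.Prime.coprime_iff_not_dvd Fact.out).2 P.not_dvd_index)
    have h4 : ((P : Subgroup N) ⊔ Kn) = ⊤ := by
      rw [← Subgroup.index_eq_one]
      exact Nat.eq_one_of_dvd_coprimes h3 h2 h1
    have h5 : ((P : Subgroup N) ⊔ Kn).map N.subtype = N := by
      rw [h4, ← MonoidHom.range_eq_map, Subgroup.range_subtype]
    rw [Subgroup.map_sup] at h5
    calc N = (P : Subgroup N).map N.subtype ⊔ Kn.map N.subtype := h5.symm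
      _ ≤ Q ⊔ K := sup_le_sup le_rfl (by
        rw [Subgroup.map_subgroupOf_eq_of_le hKN])
  -- the element `n`
  have hsm : s ∈ Subgroup.normalizer (Q : Set G) ⊔ N := by
    have : (⊤ : Subgroup G) ≤ Subgroup.normalizer (Q : Set G) ⊔ N := hfr.ge
    exact this (Subgroup.mem_top s)
  rw [Subgroup.mem_sup_of_normal_right] at hsm
  obtain ⟨n, hn, w, hw, hnw⟩ := hsm
  have hnQ : ∀ (j : ℤ) (q : G), q ∈ Q → n ^ j * q * (n ^ j)⁻¹ ∈ Q := by
    intro j q hq
    have h1 : n ^ j ∈ Subgroup.normalizer (Q : Set G) := Subgroup.zpow_mem _ hn j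
    exact (Subgroup.mem_normalizer_iff.1 h1 q).1 hq
  set U : Subgroup G := Q ⊔ Subgroup.zpowers n with hU
  have hQU : Q ≤ U := le_sup_left
  have hnU : n ∈ U := (le_sup_right : Subgroup.zpowers n ≤ U) (Subgroup.mem_zpowers n)
  refine ⟨U, ?_, Q.subgroupOf U, ?_, ?_, ⟨n, hnU⟩, ?_⟩
  · rw [eq_top_iff]
    intro v _
    have hNU : N ≤ U ⊔ K := hNKQ.trans (sup_le_sup hQU le_rfl)
    have hsU : s ∈ U ⊔ K := by
      rw [← hnw]
      exact Subgroup.mul_mem _ ((le_sup_left : U ≤ U ⊔ K) hnU) (hNU hw)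
    obtain ⟨i, hi⟩ := hs v
    have h1 := Subgroup.mul_mem _ (Subgroup.inv_mem _ (Subgroup.zpow_mem _ hsU i)) (hNU hi)
    rwa [inv_mul_cancel_left] at h1
  · exact hQp.comap_of_injective U.subtype U.subtype_injective
  · rw [Subgroup.normal_subgroupOf_iff_le_normalizer hQU]
    refine sup_le ?_ ?_
    · exact Subgroup.le_normalizer
    · rw [Subgroup.zpowers_le]
      exact hn
  · -- cyclic quotient
    let S : Subgroup G :=
      { carrier := {u | ∃ i : ℤ, n ^ i * u ∈ Q}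
        one_mem' := ⟨0, by simp⟩
        mul_mem' := by
          rintro u u' ⟨i, hi⟩ ⟨j, hj⟩
          refine ⟨j + i, ?_⟩
          have h1 := Q.mul_mem (hnQ j _ hi) hj
          have h2 : n ^ j * (n ^ i * u) * (n ^ j)⁻¹ * (n ^ j * u') = n ^ (j + i) * (u * u') := by
            rw [zpow_add]; group
          rwa [h2] at h1
        inv_mem' := by
          rintro u ⟨i, hi⟩
          refine ⟨-i, ?_⟩
          have h1 := hnQ (-i) _ (Q.inv_mem hi)
          have h2 : n ^ (-i) * (n ^ i * u)⁻¹ * (n ^ (-i))⁻¹ = n ^ (-i) * u⁻¹ := by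
            rw [zpow_neg]; group
          rwa [h2] at h1 }
    have hUS : U ≤ S := by
      refine sup_le (fun q hq => ⟨0, by simpa using hq⟩) ?_
      rw [Subgroup.zpowers_le]
      exact ⟨-1, by simp⟩
    intro x
    obtain ⟨i, hi⟩ := hUS x.2
    refine ⟨i, ?_⟩
    rw [Subgroup.mem_subgroupOf]
    simpa using hi

/-- transport -/
private lemma LFT_iso (p : ℕ) {H H' : Type} [Group H] [Group H'] (e : H ≃* H')
    (h : ∃ Q : Subgroup H, IsPGroup p Q ∧ CycQ Q) : ∃ Q : Subgroup H', IsPGroup p Q ∧ CycQ Q := by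
  obtain ⟨Q, hQ, hn, s, hs⟩ := h
  refine ⟨Q.map e.toMonoidHom, hQ.map _, hn.map _ e.surjective, e s, fun x => ?_⟩
  obtain ⟨k, hk⟩ := hs (e.symm x)
  refine ⟨k, ⟨_, hk, ?_⟩⟩
  show e (s ^ k * e.symm x) = _
  rw [map_mul, map_zpow, e.apply_symm_apply]

theorem LFT (hCYT : CYT_stmt) : LFT_stmt := by
  intro p n _ A _ _ K L hKL hPC V hKV hVL
  obtain ⟨W, hKW, hWL, hWn, hWp, hWc⟩ := hPC
  have hcyc := LFT_cyc L W hWn V hVL hWc
  obtain ⟨s, hs, hsv⟩ := hcyc
  have hKn : (K.subgroupOf V).Normal := ⟨fun w hw v => by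
    rw [Subgroup.mem_subgroupOf] at hw ⊢
    exact hKL v (hVL v.2) w hw⟩
  have hWn' : (W.subgroupOf V).Normal := ⟨fun w hw v => by
    rw [Subgroup.mem_subgroupOf] at hw ⊢
    exact hWn v (hVL v.2) w hw⟩
  obtain ⟨U, hU, hQ⟩ := LFT_core p (K.subgroupOf V) (W.subgroupOf V)
    (fun x hx => hKW hx) (fun w hw => by
      obtain ⟨k, hk⟩ := hWp w hw
      exact ⟨k, hk⟩) ⟨⟨s, hs⟩, fun v => by
      obtain ⟨i, hi⟩ := hsv v v.2
      exact ⟨i, by rw [Subgroup.mem_subgroupOf]; simpa using hi⟩⟩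
  refine ⟨U.map V.subtype, ?_, ?_⟩
  · have h1 : (U ⊔ K.subgroupOf V).map V.subtype = (⊤ : Subgroup V).map V.subtype := by rw [hU]
    rw [Subgroup.map_sup, Subgroup.map_subgroupOf_eq_of_le hKV, ← MonoidHom.range_eq_map,
      Subgroup.range_subtype] at h1
    exact h1
  · exact hCYT p n _ (LFT_iso p (U.equivMapOfInjective V.subtype V.subtype_injective) hQ)

end Pool.Agent.BQ
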