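import Pool.Agent.helper7.BQ.Spec
import Pool.Agent.helper85.TG.VA1

set_option autoImplicit false

namespace Pool.Agent.BQ

open Finset ArithmeticFunction MeasureTheory
open Pool.Agent.helper74.TG (ee gb h85_ee_eq h85_norm_ee h85_ee_add h85_ee_zero)

/-- The contribution of the prime powers not prime to `q`. -/
theorem MJL_noncoprime_sum (q u : ℕ) (hq : 0 < q) (hu : 0 < u) :
    ∑ n ∈ Ioc 0 u with ¬ Nat.Coprime n q, vonMangoldt n ≤
      q * (2 * Real.log u + 1) * Real.log u := by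
  classical
  have hlogu : 0 ≤ Real.log u := Real.log_natCast_nonneg u
  set T : Finset ℕ := (q.primeFactors ×ˢ range (Nat.log 2 u + 1)).image (fun p => p.1 ^ p.2) with hT
  have hcard : (T.card : ℝ) ≤ q * (2 * Real.log u + 1) := by
    have h1 : T.card ≤ q.primeFactors.card * (Nat.log 2 u + 1) := by
      refine card_image_le.trans ?_
      rw [card_product, card_range]
    have h2 : q.primeFactors.card ≤ q := by
      calc q.primeFactors.card ≤ (Ioc 0 q).card := card_le_card (fun p hp => by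
            rw [mem_Ioc]
            exact ⟨Nat.pos_of_mem_primeFactors hp, Nat.le_of_mem_primeFactors hp⟩)
        _ = q := by simp
    have h3 : (Nat.log 2 u : ℝ) ≤ 2 * Real.log u := by
      have h4 : (Nat.log 2 u : ℝ) * Real.log 2 ≤ Real.log u := by
        rw [← Real.log_pow]
        apply Real.log_le_log (by positivity)
        exact_mod_cast Nat.pow_log_le_self 2 hu.ne'
      have h5 := Real.log_two_gt_d9
      have h6 : (0 : ℝ) ≤ Nat.log 2 u := Nat.cast_nonneg _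
      nlinarith
    calc (T.card : ℝ) ≤ ((q.primeFactors.card * (Nat.log 2 u + 1) : ℕ) : ℝ) := by exact_mod_cast h1
      _ = q.primeFactors.card * (Nat.log 2 u + 1 : ℝ) := by push_cast; ring
      _ ≤ q * (2 * Real.log u + 1) := by
        have : (q.primeFactors.card : ℝ) ≤ q := by exact_mod_cast h2
        gcongr
  have hsub : ∀ n ∈ (Ioc 0 u).filter (fun n => ¬ Nat.Coprime n q), n ∉ T → vonMangoldt n = 0 := by
    intro n hn hnT
    rw [mem_filter, mem_Ioc] at hn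
    by_contra hne
    rw [← ne_eq, vonMangoldt_ne_zero_iff] at hne
    obtain ⟨p, k, hp, hk, rfl⟩ := (isPrimePow_nat_iff _).1 hne
    apply hnT
    rw [hT, mem_image]
    refine ⟨(p, k), ?_, rfl⟩
    rw [mem_product, Nat.mem_primeFactors, mem_range]
    refine ⟨⟨hp, ?_, hq.ne'⟩, ?_⟩
    · by_contra hd
      apply hn.2
      exact Nat.Coprime.pow_left _ ((Nat.Prime.coprime_iff_not_dvd hp).2 hd)
    · rw [Nat.lt_succ_iff]
      apply Nat.le_log_of_pow_le (by norm_num)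
      exact (Nat.pow_le_pow_left hp.two_le k).trans hn.1.2
  calc ∑ n ∈ Ioc 0 u with ¬ Nat.Coprime n q, vonMangoldt n
      = ∑ n ∈ (Ioc 0 u).filter (fun n => ¬ Nat.Coprime n q) with n ∈ T, vonMangoldt n := by
        symm
        apply sum_filter_of_ne
        intro n hn hne
        by_contra h
        exact hne (hsub n hn h)
    _ ≤ ∑ n ∈ (Ioc 0 u).filter (fun n => ¬ Nat.Coprime n q) with n ∈ T, Real.log u := by
        apply sum_le_sum
        intro n hn
        rw [mem_filter, mem_filter, mem_Ioc] at hn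
        refine vonMangoldt_le_log.trans (Real.log_le_log ?_ ?_)
        · exact_mod_cast hn.1.1.1
        · exact_mod_cast hn.1.1.2
    _ ≤ (T.card : ℝ) * Real.log u := by
        rw [sum_const, nsmul_eq_mul]
        apply mul_le_mul_of_nonneg_right _ hlogu
        exact_mod_cast card_le_card (fun n hn => (mem_filter.1 hn).2)
    _ ≤ _ := by gcongr

/-- the coefficient of the character `χ` in `ee (a n / q)` -/
noncomputable def MJL_cc {q : ℕ} (a : ℤ) (χ : DirichletCharacter ℂ q) : ℂ :=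
  ∑ b ∈ (range q).filter (fun b => Nat.Coprime b q), χ (b : ZMod q)⁻¹ * ee ((a : ℝ) * b / q)

theorem MJL_ee_int (m : ℤ) : ee (m : ℝ) = 1 := by
  rw [h85_ee_eq, Pool.Agent.helper85.BVP.ex_int]

theorem MJL_ee_mod (q n : ℕ) (hq : 1 ≤ q) (a : ℤ) :
    ee ((n : ℝ) * ((a : ℝ) / q)) = ee ((a : ℝ) * ((n % q : ℕ) : ℝ) / q) := by
  have hq0 : (q : ℝ) ≠ 0 := by
    have : 0 < q := hq
    exact_mod_cast this.ne'
  obtain ⟨k, hk⟩ : ∃ k, k = n / q := ⟨_, rfl⟩
  obtain ⟨r, hr⟩ : ∃ r, r = n % q := ⟨_, rfl⟩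
  have h1 : (n : ℝ) = (r : ℝ) + (q : ℝ) * (k : ℝ) := by
    rw [hr, hk]
    exact_mod_cast (Nat.mod_add_div n q).symm
  rw [← hr]
  have h2 : (n : ℝ) * ((a : ℝ) / q) = (a : ℝ) * (r : ℝ) / q +
      ((a * (k : ℤ) : ℤ) : ℝ) := by
    rw [h1]
    push_cast
    field_simp
  rw [h2, h85_ee_add, MJL_ee_int, mul_one]

theorem MJL_norm_cc {q : ℕ} (a : ℤ) (χ : DirichletCharacter ℂ q) :
    ‖MJL_cc a χ‖ ≤ Nat.totient q := by
  unfold MJL_cc
  refine (norm_sum_le _ _).trans ?_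
  have h1 : ∀ b ∈ (range q).filter (fun b => Nat.Coprime b q),
      ‖χ (b : ZMod q)⁻¹ * ee ((a : ℝ) * b / q)‖ ≤ 1 := by
    intro b _
    rw [norm_mul, h85_norm_ee, mul_one]
    exact DirichletCharacter.norm_le_one _ _
  refine (sum_le_sum h1).trans ?_
  rw [sum_const, nsmul_eq_mul, mul_one]
  have h2 : ((range q).filter (fun b => Nat.Coprime b q)).card = Nat.totient q := by
    rw [Nat.totient_eq_card_coprime]
    congr 1
    apply filter_congr
    intro b _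
    exact Nat.coprime_comm
  rw [h2]

theorem MJL_cc_one (hK : KLU_stmt) {q : ℕ} (hq : 1 ≤ q) (a : ℤ) (ha : IsCoprime a (q : ℤ)) :
    MJL_cc a (1 : DirichletCharacter ℂ q) = ((moebius q : ℤ) : ℂ) := by
  have h1 := hK q a hq
  have h2 : MJL_cc a (1 : DirichletCharacter ℂ q) =
      ∑ b ∈ (range q).filter (fun b => Nat.Coprime b q), ee ((b : ℝ) * a / q) := by
    unfold MJL_cc
    apply sum_congr rfl
    intro b hb
    rw [mem_filter] at hb
    have hu : IsUnit (b : ZMod q) := (ZMod.isUnit_iff_coprime b q).2 hb.2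
    have hu2 : IsUnit ((b : ZMod q)⁻¹) :=
      IsUnit.of_mul_eq_one (b : ZMod q) (ZMod.inv_mul_of_unit _ hu)
    rw [MulChar.one_apply hu2, one_mul, mul_comm (a : ℝ)]
  rw [h2, ← h1]
  have h3 : cR q a = ((moebius q : ℤ) : ℝ) := by
    unfold cR
    rw [sum_eq_single 1]
    · rw [Nat.div_one, Nat.cast_one, one_mul]
    · intro d hd hd1
      rw [mem_filter, Nat.mem_divisors] at hd
      exfalso
      apply hd1
      have h4 : IsUnit (d : ℤ) := ha.isUnit_of_dvd' hd.2 (by exact_mod_cast hd.1.1)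
      rw [Int.isUnit_iff] at h4
      omega
    · intro h
      exfalso
      apply h
      rw [mem_filter, Nat.mem_divisors]
      exact ⟨⟨one_dvd _, by omega⟩, one_dvd _⟩
  rw [h3]
  push_cast
  rfl

theorem MJL_id {q : ℕ} (hq : 1 ≤ q) (a : ℤ) (n : ℕ) [Fintype (DirichletCharacter ℂ q)] :
    (Nat.totient q : ℂ) * (if Nat.Coprime n q then ee ((n : ℝ) * ((a : ℝ) / q)) else 0) =
      ∑ χ : DirichletCharacter ℂ q, MJL_cc a χ * χ n := by
  have hne : NeZero q := ⟨by omega⟩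
  by_cases hn : Nat.Coprime n q
  · rw [if_pos hn]
    have e1 : ∀ χ : DirichletCharacter ℂ q, MJL_cc a χ * χ n =
        ∑ b ∈ (range q).filter (fun b => Nat.Coprime b q),
          ee ((a : ℝ) * b / q) * (χ (b : ZMod q)⁻¹ * χ n) := by
      intro χ
      unfold MJL_cc
      rw [sum_mul]
      apply sum_congr rfl
      intro b _
      ring
    rw [sum_congr rfl (fun χ _ => e1 χ), sum_comm]
    have e2 : ∀ b ∈ (range q).filter (fun b => Nat.Coprime b q),
        ∑ χ : DirichletCharacter ℂ q, ee ((a : ℝ) * b / q) * (χ (b : ZMod q)⁻¹ * χ n) =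
        if b = n % q then ee ((a : ℝ) * b / q) * Nat.totient q else 0 := by
      intro b hb
      rw [mem_filter, mem_range] at hb
      have hu : IsUnit (b : ZMod q) := (ZMod.isUnit_iff_coprime b q).2 hb.2
      rw [← mul_sum]
      have h1 := DirichletCharacter.sum_char_inv_mul_char_eq ℂ hu (n : ZMod q)
      have h2 : ∑ χ : DirichletCharacter ℂ q, χ (b : ZMod q)⁻¹ * χ (n : ZMod q) =
          if (b : ZMod q) = (n : ZMod q) then (Nat.totient q : ℂ) else 0 := by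
        rw [← h1]
        apply sum_congr _ (fun _ _ => rfl)
        ext χ
        simp
      rw [h2]
      have h3 : ((b : ZMod q) = (n : ZMod q)) ↔ b = n % q := by
        rw [ZMod.natCast_eq_natCast_iff]
        constructor
        · intro h
          have := h.symm
          unfold Nat.ModEq at this
          rw [this, Nat.mod_eq_of_lt hb.1]
        · intro h
          rw [h]
          exact Nat.mod_modEq n q
      by_cases h4 : b = n % q
      · rw [if_pos (h3.2 h4), if_pos h4]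
      · rw [if_neg (fun h => h4 (h3.1 h)), if_neg h4, mul_zero]
    rw [sum_congr rfl e2, sum_ite_eq_of_mem']
    · rw [MJL_ee_mod q n hq a]
      ring
    · rw [mem_filter, mem_range]
      refine ⟨Nat.mod_lt _ (by omega), ?_⟩
      unfold Nat.Coprime at hn ⊢
      rw [← Nat.gcd_rec, Nat.gcd_comm]
      exact hn
  · rw [if_neg hn, mul_zero]
    symm
    apply sum_eq_zero
    intro χ _
    have : ¬ IsUnit (n : ZMod q) := by
      rw [ZMod.isUnit_iff_coprime]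
      exact hn
    rw [MulChar.map_nonunit χ this, mul_zero]


open Classical in
/-- the error for the character `χ` -/
noncomputable def MJL_E {q : ℕ} (B y : ℕ) (χ : DirichletCharacter ℂ q) : ℂ :=
  ∑ n ∈ Ioc y (y + B), ((vonMangoldt n : ℂ) * χ n - (if χ = 1 then 1 else 0))

theorem MJL_decomp (hK : KLU_stmt) {q : ℕ} (hq : 1 ≤ q) (a : ℤ) (ha : IsCoprime a (q : ℤ))
    (B y : ℕ) [Fintype (DirichletCharacter ℂ q)] :
    (Nat.totient q : ℂ) * (Sw (fun n => vonMangoldt n) B y ((a : ℝ) / q) -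
      ((((moebius q : ℤ) : ℝ) / (Nat.totient q : ℝ) * B : ℝ) : ℂ)) =
    ∑ χ : DirichletCharacter ℂ q, MJL_cc a χ * MJL_E B y χ +
      (Nat.totient q : ℂ) * ∑ n ∈ (Ioc y (y + B)).filter (fun n => ¬ Nat.Coprime n q),
        (vonMangoldt n : ℂ) * ee ((n : ℝ) * ((a : ℝ) / q)) := by
  classical
  have hφ : (Nat.totient q : ℂ) ≠ 0 := by
    have : 0 < Nat.totient q := Nat.totient_pos.2 (by omega)
    exact_mod_cast this.ne'
  have e1 : ∀ χ : DirichletCharacter ℂ q, MJL_cc a χ * MJL_E B y χ =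
      ∑ n ∈ Ioc y (y + B), (vonMangoldt n : ℂ) * (MJL_cc a χ * χ n) -
        (if χ = 1 then ((moebius q : ℤ) : ℂ) * B else 0) := by
    intro χ
    unfold MJL_E
    rw [sum_sub_distrib, sum_const, Nat.card_Ioc, Nat.add_sub_cancel_left, nsmul_eq_mul, mul_sub,
      mul_sum]
    congr 1
    · apply sum_congr rfl
      intro n _
      ring
    · split_ifs with h
      · rw [h, MJL_cc_one hK hq a ha]
        ring
      · ring
  rw [sum_congr rfl (fun χ _ => e1 χ), sum_sub_distrib, sum_ite_eq' univ (1 : DirichletCharacter ℂ q),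
    if_pos (mem_univ _), sum_comm]
  have e2 : ∀ n ∈ Ioc y (y + B), ∑ χ : DirichletCharacter ℂ q,
      (vonMangoldt n : ℂ) * (MJL_cc a χ * χ n) =
      (Nat.totient q : ℂ) * (if Nat.Coprime n q then
        (vonMangoldt n : ℂ) * ee ((n : ℝ) * ((a : ℝ) / q)) else 0) := by
    intro n _
    rw [← mul_sum, ← MJL_id hq a n]
    split_ifs with h
    · ring
    · ring
  rw [sum_congr rfl e2, ← mul_sum, ← sum_filter]
  unfold Sw
  have e3 : ∑ n ∈ Ioc y (y + B), ((vonMangoldt n : ℝ) : ℂ) * ee ((n : ℝ) * ((a : ℝ) / q)) =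
      ∑ n ∈ (Ioc y (y + B)).filter (fun n => Nat.Coprime n q),
        (vonMangoldt n : ℂ) * ee ((n : ℝ) * ((a : ℝ) / q)) +
      ∑ n ∈ (Ioc y (y + B)).filter (fun n => ¬ Nat.Coprime n q),
        (vonMangoldt n : ℂ) * ee ((n : ℝ) * ((a : ℝ) / q)) :=
    (sum_filter_add_sum_filter_not _ _ _).symm
  rw [e3]
  obtain ⟨S1, hS1⟩ : ∃ S1, S1 = ∑ n ∈ (Ioc y (y + B)).filter (fun n => Nat.Coprime n q),
        (vonMangoldt n : ℂ) * ee ((n : ℝ) * ((a : ℝ) / q)) := ⟨_, rfl⟩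
  obtain ⟨S2, hS2⟩ : ∃ S2, S2 = ∑ n ∈ (Ioc y (y + B)).filter (fun n => ¬ Nat.Coprime n q),
        (vonMangoldt n : ℂ) * ee ((n : ℝ) * ((a : ℝ) / q)) := ⟨_, rfl⟩
  rw [← hS1, ← hS2]
  push_cast
  field_simp
  ring

theorem MJL_bound (hK : KLU_stmt) {q : ℕ} (hq : 1 ≤ q) (a : ℤ) (ha : IsCoprime a (q : ℤ))
    (B y u : ℕ) (hu : y + B ≤ u) (hu0 : 0 < u) [Fintype (DirichletCharacter ℂ q)] :
    ‖Sw (fun n => vonMangoldt n) B y ((a : ℝ) / q) -
      ((((moebius q : ℤ) : ℝ) / (Nat.totient q : ℝ) * B : ℝ) : ℂ)‖ ^ 2 ≤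
    2 * (Nat.totient q : ℝ) * ∑ χ : DirichletCharacter ℂ q, ‖MJL_E B y χ‖ ^ 2 +
      2 * (q * (2 * Real.log u + 1) * Real.log u) ^ 2 := by
  classical
  have hφ : (0 : ℝ) < Nat.totient q := by
    have : 0 < Nat.totient q := Nat.totient_pos.2 (by omega)
    exact_mod_cast this
  obtain ⟨Z, hZ⟩ : ∃ Z, Z = Sw (fun n => vonMangoldt n) B y ((a : ℝ) / q) -
      ((((moebius q : ℤ) : ℝ) / (Nat.totient q : ℝ) * B : ℝ) : ℂ) := ⟨_, rfl⟩
  have hd := MJL_decomp hK hq a ha B y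
  rw [← hZ] at hd ⊢
  have hR : ‖∑ n ∈ (Ioc y (y + B)).filter (fun n => ¬ Nat.Coprime n q),
        (vonMangoldt n : ℂ) * ee ((n : ℝ) * ((a : ℝ) / q))‖ ≤
      q * (2 * Real.log u + 1) * Real.log u := by
    refine (norm_sum_le _ _).trans ?_
    refine le_trans ?_ (MJL_noncoprime_sum q u (by omega) hu0)
    calc ∑ n ∈ (Ioc y (y + B)).filter (fun n => ¬ Nat.Coprime n q),
          ‖(vonMangoldt n : ℂ) * ee ((n : ℝ) * ((a : ℝ) / q))‖ =
        ∑ n ∈ (Ioc y (y + B)).filter (fun n => ¬ Nat.Coprime n q), vonMangoldt n := by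
          apply sum_congr rfl
          intro n _
          rw [norm_mul, h85_norm_ee, mul_one, Complex.norm_real, Real.norm_of_nonneg
            vonMangoldt_nonneg]
      _ ≤ ∑ n ∈ (Ioc 0 u).filter (fun n => ¬ Nat.Coprime n q), vonMangoldt n := by
          apply sum_le_sum_of_subset_of_nonneg
          · intro n hn
            rw [mem_filter, mem_Ioc] at hn ⊢
            exact ⟨⟨by omega, by omega⟩, hn.2⟩
          · intro n _ _
            exact vonMangoldt_nonneg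
  obtain ⟨W, hW⟩ : ∃ W, W = ∑ n ∈ (Ioc y (y + B)).filter (fun n => ¬ Nat.Coprime n q),
        (vonMangoldt n : ℂ) * ee ((n : ℝ) * ((a : ℝ) / q)) := ⟨_, rfl⟩
  rw [← hW] at hd hR
  have h1 : (Nat.totient q : ℝ) * ‖Z‖ ≤ (Nat.totient q : ℝ) *
      (∑ χ : DirichletCharacter ℂ q, ‖MJL_E B y χ‖ + ‖W‖) := by
    have e1 : (Nat.totient q : ℝ) * ‖Z‖ = ‖(Nat.totient q : ℂ) * Z‖ := by
      rw [norm_mul, Complex.norm_natCast]
    rw [e1, hd]
    refine (norm_add_le _ _).trans ?_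
    rw [norm_mul, Complex.norm_natCast, mul_add]
    apply add_le_add _ le_rfl
    refine (norm_sum_le _ _).trans ?_
    rw [mul_sum]
    apply sum_le_sum
    intro χ _
    rw [norm_mul]
    exact mul_le_mul_of_nonneg_right (MJL_norm_cc a χ) (norm_nonneg _)
  have h2 : ‖Z‖ ≤ ∑ χ : DirichletCharacter ℂ q, ‖MJL_E B y χ‖ + ‖W‖ :=
    le_of_mul_le_mul_left h1 hφ
  have h3 : (∑ χ : DirichletCharacter ℂ q, ‖MJL_E B y χ‖) ^ 2 ≤
      (Nat.totient q : ℝ) * ∑ χ : DirichletCharacter ℂ q, ‖MJL_E B y χ‖ ^ 2 := by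
    have h4 := sq_sum_le_card_mul_sum_sq (s := (univ : Finset (DirichletCharacter ℂ q)))
      (f := fun χ => ‖MJL_E B y χ‖)
    have hne : NeZero q := ⟨by omega⟩
    have h5 : (univ : Finset (DirichletCharacter ℂ q)).card = Nat.totient q := by
      rw [card_univ, ← Nat.card_eq_fintype_card,
        DirichletCharacter.card_eq_totient_of_hasEnoughRootsOfUnity]
    rw [h5] at h4
    exact h4
  have h6 : ‖Z‖ ^ 2 ≤ (∑ χ : DirichletCharacter ℂ q, ‖MJL_E B y χ‖ + ‖W‖) ^ 2 :=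
    pow_le_pow_left₀ (norm_nonneg _) h2 2
  have h7 : ‖W‖ ^ 2 ≤ (q * (2 * Real.log u + 1) * Real.log u) ^ 2 :=
    pow_le_pow_left₀ (norm_nonneg _) hR 2
  nlinarith [sq_nonneg ((∑ χ : DirichletCharacter ℂ q, ‖MJL_E B y χ‖) - ‖W‖)]

theorem MJL_logpow (A : ℕ) : ∃ x₀ : ℝ, 1 ≤ x₀ ∧ ∀ x : ℝ, x₀ ≤ x →
    400 * Real.log x ^ A ≤ x := by
  have h1 := (isLittleO_log_rpow_rpow_atTop (A : ℝ) (show (0 : ℝ) < 1 by norm_num)).bound
    (show (0 : ℝ) < 1 / 400 by norm_num)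
  obtain ⟨x₀, h⟩ := Filter.eventually_atTop.1 h1
  refine ⟨max x₀ 1, le_max_right _ _, fun x hx => ?_⟩
  have hx1 : 1 ≤ x := (le_max_right _ _).trans hx
  have := h x ((le_max_left _ _).trans hx)
  rw [Real.norm_of_nonneg (Real.rpow_nonneg (Real.log_nonneg hx1) _), Real.rpow_one,
    Real.norm_of_nonneg (by linarith), Real.rpow_natCast] at this
  linarith

theorem MJL (h1 : PAW_stmt) (h2 : KLU_stmt) : MJL_stmt := by
  classical
  intro θ A K hθ
  obtain ⟨Y₁, hY₁⟩ := h1 θ (A + 2 * K + 1) K hθ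
  obtain ⟨x₀, _, hx₀⟩ := MJL_logpow (2 * K + 4 + A)
  refine ⟨max Y₁ (max ⌈x₀⌉₊ ⌈Real.exp 16⌉₊), fun Y hY B hB hBY q hq hqK a ha => ?_⟩
  have hYY₁ : Y₁ ≤ Y := (le_max_left _ _).trans hY
  have hYx : x₀ ≤ Y := by
    have h3 : ⌈x₀⌉₊ ≤ Y := ((le_max_left _ _).trans (le_max_right _ _)).trans hY
    exact (Nat.le_ceil _).trans (by exact_mod_cast h3)
  have hYe : Real.exp 16 ≤ Y := by
    have h3 : ⌈Real.exp 16⌉₊ ≤ Y := ((le_max_right _ _).trans (le_max_right _ _)).trans hY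
    exact (Nat.le_ceil _).trans (by exact_mod_cast h3)
  have hY0 : (0 : ℝ) < Y := (Real.exp_pos _).trans_le hYe
  have hY1 : (1 : ℝ) ≤ Y := by
    have := Real.one_le_exp (show (0 : ℝ) ≤ 16 by norm_num)
    linarith
  obtain ⟨ℓ, hℓ⟩ : ∃ ℓ, ℓ = Real.log Y := ⟨_, rfl⟩
  have hℓ16 : 16 ≤ ℓ := by
    rw [hℓ, Real.le_log_iff_exp_le hY0]
    exact hYe
  have hℓ0 : 0 < ℓ := by linarith
  have hlog := hx₀ Y hYx
  rw [← hℓ] at hlog hqK ⊢
  have hne : NeZero q := ⟨by omega⟩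
  have hfin : Fintype (DirichletCharacter ℂ q) := Fintype.ofFinite _
  have hφq : (Nat.totient q : ℝ) ≤ ℓ ^ K := by
    have : (Nat.totient q : ℝ) ≤ q := by exact_mod_cast Nat.totient_le q
    linarith
  have hφ0 : (0 : ℝ) ≤ Nat.totient q := Nat.cast_nonneg _
  have hYn : 0 < Y := by exact_mod_cast hY0
  -- the bound for each `y`
  have hb : ∀ y ∈ Ico Y (2 * Y), ‖Sw (fun n => vonMangoldt n) B y ((a : ℝ) / q) -
      ((((moebius q : ℤ) : ℝ) / (Nat.totient q : ℝ) * B : ℝ) : ℂ)‖ ^ 2 ≤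
      2 * (Nat.totient q : ℝ) * ∑ χ : DirichletCharacter ℂ q, ‖MJL_E B y χ‖ ^ 2 +
      200 * ℓ ^ (2 * K + 4) := by
    intro y hy
    rw [mem_Ico] at hy
    refine (MJL_bound h2 hq a ha B y (3 * Y) (by omega) (by omega)).trans ?_
    apply add_le_add le_rfl
    have hl3 : Real.log ((3 * Y : ℕ) : ℝ) ≤ 2 * ℓ := by
      push_cast
      rw [Real.log_mul (by norm_num) hY0.ne', ← hℓ]
      have h3 : Real.log 3 ≤ 2 := by
        have := Real.log_le_sub_one_of_pos (show (0 : ℝ) < 3 by norm_num)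
        linarith
      linarith
    have hl0 : 0 ≤ Real.log ((3 * Y : ℕ) : ℝ) := Real.log_natCast_nonneg _
    have h4 : (q : ℝ) * (2 * Real.log ((3 * Y : ℕ) : ℝ) + 1) * Real.log ((3 * Y : ℕ) : ℝ) ≤
        10 * ℓ ^ (K + 2) := by
      have hp : 0 ≤ ℓ ^ K := by positivity
      calc (q : ℝ) * (2 * Real.log ((3 * Y : ℕ) : ℝ) + 1) * Real.log ((3 * Y : ℕ) : ℝ) ≤
            ℓ ^ K * (5 * ℓ) * (2 * ℓ) := by
            apply mul_le_mul _ hl3 hl0 (by positivity)
            apply mul_le_mul hqK (by linarith) (by linarith) hp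
        _ = 10 * ℓ ^ (K + 2) := by ring
    have h5 : 0 ≤ (q : ℝ) * (2 * Real.log ((3 * Y : ℕ) : ℝ) + 1) *
        Real.log ((3 * Y : ℕ) : ℝ) := by positivity
    have h6 := pow_le_pow_left₀ h5 h4 2
    have h7 : (10 * ℓ ^ (K + 2)) ^ 2 = 100 * ℓ ^ (2 * K + 4) := by ring
    rw [h7] at h6
    linarith
  refine (sum_le_sum hb).trans ?_
  rw [sum_add_distrib, sum_const, Nat.card_Ico, ← mul_sum, sum_comm]
  -- the characters
  have hchar : ∀ χ : DirichletCharacter ℂ q, ∑ y ∈ Ico Y (2 * Y), ‖MJL_E B y χ‖ ^ 2 ≤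
      Y * (B : ℝ) ^ 2 / ℓ ^ (A + 2 * K + 1) := by
    intro χ
    have hq2 : (q : ℝ) ≤ Real.log Y ^ K := by
      rw [← hℓ]
      exact hqK
    have h3 := hY₁ Y hYY₁ B hB hBY q hq hq2 χ
    rw [← hℓ] at h3
    by_cases hχ : χ = 1
    · refine le_trans (le_of_eq ?_) (h3.2 hχ)
      apply sum_congr rfl
      intro y _
      unfold MJL_E
      rw [if_pos hχ]
    · refine le_trans (le_of_eq ?_) (h3.1 hχ)
      apply sum_congr rfl
      intro y _
      unfold MJL_E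
      rw [if_neg hχ]
      simp only [sub_zero]
  have hsum : ∑ χ : DirichletCharacter ℂ q, ∑ y ∈ Ico Y (2 * Y), ‖MJL_E B y χ‖ ^ 2 ≤
      (Nat.totient q : ℝ) * (Y * (B : ℝ) ^ 2 / ℓ ^ (A + 2 * K + 1)) := by
    refine (sum_le_sum (fun χ _ => hchar χ)).trans (le_of_eq ?_)
    rw [sum_const, nsmul_eq_mul]
    congr 2
    rw [card_univ, ← Nat.card_eq_fintype_card,
      DirichletCharacter.card_eq_totient_of_hasEnoughRootsOfUnity]
  have hX0 : 0 ≤ (Y : ℝ) * (B : ℝ) ^ 2 / ℓ ^ (A + 2 * K + 1) := by positivity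
  have hpart1 : 2 * (Nat.totient q : ℝ) * ∑ χ : DirichletCharacter ℂ q,
      ∑ y ∈ Ico Y (2 * Y), ‖MJL_E B y χ‖ ^ 2 ≤ 1 / 2 * (Y * (B : ℝ) ^ 2 / ℓ ^ A) := by
    calc 2 * (Nat.totient q : ℝ) * ∑ χ : DirichletCharacter ℂ q,
          ∑ y ∈ Ico Y (2 * Y), ‖MJL_E B y χ‖ ^ 2 ≤
        2 * (Nat.totient q : ℝ) * ((Nat.totient q : ℝ) *
          (Y * (B : ℝ) ^ 2 / ℓ ^ (A + 2 * K + 1))) :=
          mul_le_mul_of_nonneg_left hsum (by positivity)
      _ ≤ 2 * ℓ ^ K * (ℓ ^ K * (Y * (B : ℝ) ^ 2 / ℓ ^ (A + 2 * K + 1))) := by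
          apply mul_le_mul (by linarith) _ (by positivity) (by positivity)
          exact mul_le_mul_of_nonneg_right hφq hX0
      _ = 2 / ℓ * (Y * (B : ℝ) ^ 2 / ℓ ^ A) := by
          have : ℓ ^ (A + 2 * K + 1) = ℓ ^ A * ℓ ^ K * ℓ ^ K * ℓ := by ring
          rw [this]
          field_simp
      _ ≤ 1 / 2 * (Y * (B : ℝ) ^ 2 / ℓ ^ A) := by
          apply mul_le_mul_of_nonneg_right _ (by positivity)
          rw [div_le_iff₀ hℓ0]
          linarith
  have hpart2 : ((2 * Y - Y : ℕ)) • (200 * ℓ ^ (2 * K + 4)) ≤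
      1 / 2 * (Y * (B : ℝ) ^ 2 / ℓ ^ A) := by
    have h3 : 2 * Y - Y = Y := by omega
    rw [h3, nsmul_eq_mul]
    have hB2 : (Y : ℝ) ≤ (B : ℝ) ^ 2 := by
      have h4 : (Y : ℝ) ^ (1 / 2 : ℝ) ≤ B :=
        (Real.rpow_le_rpow_of_exponent_le hY1 (by linarith)).trans hB
      have h5 := pow_le_pow_left₀ (by positivity) h4 2
      rw [← Real.rpow_natCast, ← Real.rpow_mul hY0.le] at h5
      norm_num at h5
      exact h5
    have h6 : 400 * ℓ ^ (2 * K + 4) ≤ (B : ℝ) ^ 2 / ℓ ^ A := by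
      rw [le_div_iff₀ (by positivity)]
      calc 400 * ℓ ^ (2 * K + 4) * ℓ ^ A = 400 * ℓ ^ (2 * K + 4 + A) := by ring
        _ ≤ (B : ℝ) ^ 2 := hlog.trans hB2
    calc (Y : ℝ) * (200 * ℓ ^ (2 * K + 4)) = 1 / 2 * (Y * (400 * ℓ ^ (2 * K + 4))) := by ring
      _ ≤ 1 / 2 * (Y * ((B : ℝ) ^ 2 / ℓ ^ A)) := by
          apply mul_le_mul_of_nonneg_left _ (by norm_num)
          exact mul_le_mul_of_nonneg_left h6 hY0.le
      _ = 1 / 2 * (Y * (B : ℝ) ^ 2 / ℓ ^ A) := by ring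
  linarith

end Pool.Agent.BQ
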